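import Pool.Agent.W675.PegC

/-!
# Staircases of chords and the convex hull
-/

set_option autoImplicit false
open Complex Set Topology Metric

namespace Pool.Agent.Q39.PG

open Pool.Agent.H763R2 Pool.Agent.H763R2.An Pool.Agent.H765R3.Peg
open Pool.Agent.H763R2.Dm (NoSq)
open Pool.Agent.W675.Peg

variable {c : ℝ → ℂ}

/-- one of the further vertices of the square on the left of the chord from `A` to `B` is not an
interior point of the convex hull -/
def Blocked (C : Set ℂ) (A B : ℂ) : Prop :=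
  A + I * (B - A) ∉ interior (convexHull ℝ C) ∨ B + I * (B - A) ∉ interior (convexHull ℝ C)

theorem pos_mem_hull (L : Loop c) {z : ℂ} (hz : 0 < mgc c z) : z ∈ convexHull ℝ (range c) := by
  obtain ⟨s, hs, t, ht⟩ := ray L (v := 1) one_ne_zero hz.le
  obtain ⟨s', hs', t', ht'⟩ := ray L (v := -1) (neg_ne_zero.2 one_ne_zero) hz.le
  have h1 : c t ∈ convexHull ℝ (range c) := subset_convexHull ℝ _ (mem_range_self t)
  have h2 : c t' ∈ convexHull ℝ (range c) := subset_convexHull ℝ _ (mem_range_self t')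
  rcases (add_nonneg hs hs').eq_or_lt with h | h
  · have h0 : s = 0 := by linarith
    rw [ht, h0] at h1
    simpa using h1
  · have h3 := convex_convexHull ℝ (range c) h1 h2 (a := s' / (s + s')) (b := s / (s + s'))
      (by positivity) (by positivity) (by field_simp; ring)
    have h4 : (s' / (s + s')) • c t + (s / (s + s')) • c t' = z := by
      rw [ht, ht', real_smul, real_smul]
      have h5 : (s : ℂ) + s' ≠ 0 := by
        have : ((s + s' : ℝ) : ℂ) ≠ 0 := ofReal_ne_zero.2 h.ne'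
        push_cast at this
        exact this
      push_cast
      field_simp
      ring
    rwa [h4] at h3

theorem mgc_le_hull (L : Loop c) {z : ℂ} (hz : z ∉ interior (convexHull ℝ (range c))) :
    mgc c z ≤ 0 := by
  by_contra h
  push Not at h
  apply hz
  have hop : IsOpen {w | 0 < mgc c w} := isOpen_lt continuous_const (mgc_sg L).cont
  exact interior_maximal (fun w hw => pos_mem_hull L hw) hop h

/-- staircases, for any sufficient condition for a blocked chord -/
theorem stairG (L : Loop c) (J : Inj c) (nosq : NoSq (range c)) (Bl : ℂ → ℂ → Prop)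
    (hBl : ∀ A B, Bl A B → mgc c (A + I * (B - A)) ≤ 0 ∨ mgc c (B + I * (B - A)) ≤ 0)
    (m : ℕ) (x y : ℕ → ℝ)
    (hx : ∀ j < m, x j ≤ x (j + 1)) (hy : ∀ j < m, y j ≤ y (j + 1))
    (hxm : x m = x 0 + 1) (hym : y m = y 0 + 1)
    (h1 : ∀ j < m, x (j + 1) < y j) (h2 : ∀ j < m, y j < x j + 1)
    (hE : ∀ j < m, ∀ t ∈ Icc (x j) (x (j + 1)), Bl (c t) (c (y j)))
    (hD : ∀ j < m, ∀ t ∈ Icc (y j) (y (j + 1)), Bl (c (x (j + 1))) (c t)) :
    False := by
  refine staircase L J nosq m x y hx hy hxm hym h1 h2 (fun j hj t ht => ?_)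
    (fun j hj t ht => ?_)
  · rw [DD_eq, CC_eq]
    exact hBl _ _ (hE j hj t ht)
  · rw [DD_eq, CC_eq]
    exact hBl _ _ (hD j hj t ht)

theorem blocked_mgc (L : Loop c) (A B : ℂ) (h : Blocked (range c) A B) :
    mgc c (A + I * (B - A)) ≤ 0 ∨ mgc c (B + I * (B - A)) ≤ 0 :=
  h.imp (mgc_le_hull L) (mgc_le_hull L)

/-- staircases -/
theorem stair (L : Loop c) (J : Inj c) (nosq : NoSq (range c)) (m : ℕ) (x y : ℕ → ℝ)
    (hx : ∀ j < m, x j ≤ x (j + 1)) (hy : ∀ j < m, y j ≤ y (j + 1))
    (hxm : x m = x 0 + 1) (hym : y m = y 0 + 1)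
    (h1 : ∀ j < m, x (j + 1) < y j) (h2 : ∀ j < m, y j < x j + 1)
    (hE : ∀ j < m, ∀ t ∈ Icc (x j) (x (j + 1)), Blocked (range c) (c t) (c (y j)))
    (hD : ∀ j < m, ∀ t ∈ Icc (y j) (y (j + 1)), Blocked (range c) (c (x (j + 1))) (c t)) :
    False :=
  stairG L J nosq _ (blocked_mgc L) m x y hx hy hxm hym h1 h2 hE hD

/-- `n` points -/
theorem pointsG (L : Loop c) (J : Inj c) (nosq : NoSq (range c)) (Bl : ℂ → ℂ → Prop)
    (hBl : ∀ A B, Bl A B → mgc c (A + I * (B - A)) ≤ 0 ∨ mgc c (B + I * (B - A)) ≤ 0)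
    (n a : ℕ) (ha : 1 ≤ a)
    (han : a + 2 ≤ n) (p : ℤ → ℝ) (hp : StrictMono p) (hpn : ∀ j : ℤ, p (j + n) = p j + 1)
    (hR : ∀ j : ℤ, ∀ t ∈ Icc (p (j + a)) (p (j + a + 1)), Bl (c t) (c (p j)))
    (hL : ∀ j : ℤ, ∀ t ∈ Icc (p (j - a - 1)) (p (j - a)), Bl (c (p j)) (c t)) :
    False := by
  refine stairG L J nosq Bl hBl n (fun j => p (j + a)) (fun j => p (j + n))
    (fun j _ => hp.monotone (by push_cast; omega)) (fun j _ => hp.monotone (by push_cast; omega))
    ?_ ?_ (fun j _ => hp (by push_cast; omega)) (fun j _ => ?_) (fun j _ t ht => ?_)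
    (fun j _ t ht => ?_)
  · have := hpn (a : ℤ)
    simp only [Nat.cast_zero, zero_add]
    rw [← this]
    congr 1; ring
  · have := hpn (n : ℤ)
    simp only [Nat.cast_zero, zero_add]
    rw [← this]
  · have := hpn (j + a : ℤ)
    rw [← this]
    exact hp (by omega)
  · have e := hpn j
    rw [e, L.per]
    have e2 : ((j + 1 : ℕ) : ℤ) + a = (j : ℤ) + a + 1 := by push_cast; ring
    exact hR j t ⟨ht.1, by rw [← e2]; exact ht.2⟩
  · have e1 : (j : ℤ) + n = ((((j + 1 : ℕ) : ℤ) + a) - a - 1) + n := by push_cast; ring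
    have e2 : ((j + 1 : ℕ) : ℤ) + n = ((((j + 1 : ℕ) : ℤ) + a) - a) + n := by push_cast; ring
    rw [e1, e2, hpn, hpn] at ht
    have h3 := hL (((j + 1 : ℕ) : ℤ) + a) (t - 1) ⟨by linarith [ht.1], by linarith [ht.2]⟩
    have h4 : c (t - 1) = c t := by
      have := L.per (t - 1)
      rw [sub_add_cancel] at this
      exact this.symm
    rwa [h4] at h3

/-- `n` points -/
theorem points (L : Loop c) (J : Inj c) (nosq : NoSq (range c)) (n a : ℕ) (ha : 1 ≤ a)
    (han : a + 2 ≤ n) (p : ℤ → ℝ) (hp : StrictMono p) (hpn : ∀ j : ℤ, p (j + n) = p j + 1)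
    (hR : ∀ j : ℤ, ∀ t ∈ Icc (p (j + a)) (p (j + a + 1)), Blocked (range c) (c t) (c (p j)))
    (hL : ∀ j : ℤ, ∀ t ∈ Icc (p (j - a - 1)) (p (j - a)), Blocked (range c) (c (p j)) (c t)) :
    False :=
  pointsG L J nosq _ (blocked_mgc L) n a ha han p hp hpn hR hL

/-- a point on the wrong side of a line -/
theorem notMem_hull {C : Set ℂ} {a z : ℂ} (ha : a ≠ 0) {b : ℝ}
    (h : ∀ x ∈ C, 0 ≤ (a * x).re + b) (hz : (a * z).re + b ≤ 0) :
    z ∉ interior (convexHull ℝ C) := by
  intro hmem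
  have hconv : Convex ℝ {x : ℂ | 0 ≤ (a * x).re + b} := by
    intro x hx y hy s t hs ht hst
    simp only [mem_ofPred_eq] at hx hy ⊢
    have e : (a * (s • x + t • y)).re + b = s * ((a * x).re + b) + t * ((a * y).re + b) := by
      have e1 : (a * (s • x + t • y)).re = s * (a * x).re + t * (a * y).re := by
        rw [real_smul, real_smul, mul_add, add_re]
        rw [show a * ((s : ℂ) * x) = (s : ℂ) * (a * x) by ring,
          show a * ((t : ℂ) * y) = (t : ℂ) * (a * y) by ring, re_ofReal_mul, re_ofReal_mul]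
      rw [e1]
      have : b = s * b + t * b := by rw [← add_mul, hst, one_mul]
      linarith
    rw [e]
    exact add_nonneg (mul_nonneg hs hx) (mul_nonneg ht hy)
  have hsub : convexHull ℝ C ⊆ {x : ℂ | 0 ≤ (a * x).re + b} := convexHull_min h hconv
  obtain ⟨r, hr, hball⟩ := Metric.isOpen_iff.1 isOpen_interior z hmem
  have ha0 : 0 < ‖a‖ := norm_pos_iff.2 ha
  set s : ℝ := r / (2 * ‖a‖) with hs
  have hs0 : 0 < s := by positivity
  have h1 : z - (s : ℂ) * (starRingEnd ℂ) a ∈ ball z r := by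
    rw [mem_ball, dist_eq_norm, sub_sub_cancel_left, norm_neg, norm_mul, norm_real,
      Real.norm_of_nonneg hs0.le, RCLike.norm_conj, hs]
    field_simp
    linarith
  have h2 := hsub (interior_subset (hball h1))
  simp only [mem_ofPred_eq] at h2
  have e : (a * (z - (s : ℂ) * (starRingEnd ℂ) a)).re = (a * z).re - s * ‖a‖ ^ 2 := by
    rw [mul_sub, sub_re]
    rw [show a * ((s : ℂ) * (starRingEnd ℂ) a) = (s : ℂ) * (a * (starRingEnd ℂ) a) by ring,
      mul_conj, ← ofReal_mul, ofReal_re, normSq_eq_norm_sq]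
  rw [e] at h2
  have : 0 < s * ‖a‖ ^ 2 := by positivity
  linarith

/-- `C` is on the left of the line through `P` in direction `u`, and `X` is ahead of `P` -/
theorem blocked_end {C : Set ℂ} {P X u : ℂ} (hu : u ≠ 0)
    (h : ∀ z ∈ C, 0 ≤ ((z - P) * (starRingEnd ℂ) u).im)
    (hX : 0 ≤ ((X - P) * (starRingEnd ℂ) u).re) : Blocked C X P := by
  right
  have hu' : -I * (starRingEnd ℂ) u ≠ 0 :=
    mul_ne_zero (neg_ne_zero.2 I_ne_zero) ((map_ne_zero _).2 hu)
  have key : ∀ z : ℂ, (-I * (starRingEnd ℂ) u * z).re + -(-I * (starRingEnd ℂ) u * P).re =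
      ((z - P) * (starRingEnd ℂ) u).im := by
    intro z
    simp only [mul_re, mul_im, neg_re, neg_im, I_re, I_im, sub_re, sub_im]
    ring
  refine notMem_hull hu' (b := -(-I * (starRingEnd ℂ) u * P).re) (fun z hz => ?_) ?_
  · rw [key]; exact h z hz
  · rw [key]
    have : ((P + I * (P - X) - P) * (starRingEnd ℂ) u).im =
        -((X - P) * (starRingEnd ℂ) u).re := by
      simp only [mul_re, mul_im, add_re, add_im, I_re, I_im, sub_re, sub_im]
      ring
    rw [this]; linarith

/-- `C` is on the right of the line through `P` in direction `v`, and `X` is ahead of `P` -/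
theorem blocked_start {C : Set ℂ} {P X v : ℂ} (hv : v ≠ 0)
    (h : ∀ z ∈ C, ((z - P) * (starRingEnd ℂ) v).im ≤ 0)
    (hX : 0 ≤ ((X - P) * (starRingEnd ℂ) v).re) : Blocked C P X := by
  left
  have hv' : I * (starRingEnd ℂ) v ≠ 0 := mul_ne_zero I_ne_zero ((map_ne_zero _).2 hv)
  have key : ∀ z : ℂ, (I * (starRingEnd ℂ) v * z).re + -(I * (starRingEnd ℂ) v * P).re =
      -((z - P) * (starRingEnd ℂ) v).im := by
    intro z
    simp only [mul_re, mul_im, I_re, I_im, sub_re, sub_im]
    ring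
  refine notMem_hull hv' (b := -(I * (starRingEnd ℂ) v * P).re) (fun z hz => ?_) ?_
  · rw [key]; linarith [h z hz]
  · rw [key]
    have : ((P + I * (X - P) - P) * (starRingEnd ℂ) v).im =
        ((X - P) * (starRingEnd ℂ) v).re := by
      simp only [mul_re, mul_im, add_re, add_im, I_re, I_im, sub_re, sub_im]
      ring
    rw [this]; linarith

/-- all points of `C` are seen from `P` under an angle of at most 90 degrees with `X` -/
theorem blocked_both {C : Set ℂ} {P X : ℂ} (hX : X ≠ P)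
    (h : ∀ z ∈ C, 0 ≤ ((z - P) * (starRingEnd ℂ) (X - P)).re) :
    Blocked C X P ∧ Blocked C P X := by
  have hu : (starRingEnd ℂ) (X - P) ≠ 0 := (map_ne_zero _).2 (sub_ne_zero.2 hX)
  have key : ∀ z : ℂ, ((starRingEnd ℂ) (X - P) * z).re + -((starRingEnd ℂ) (X - P) * P).re =
      ((z - P) * (starRingEnd ℂ) (X - P)).re := by
    intro z
    simp only [mul_re, sub_re, sub_im]
    ring
  have h0 : ∀ z ∈ C, 0 ≤ ((starRingEnd ℂ) (X - P) * z).re + -((starRingEnd ℂ) (X - P) * P).re :=
    fun z hz => by rw [key]; exact h z hz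
  have e : ∀ s : ℝ, (((s : ℂ) * I * (X - P)) * (starRingEnd ℂ) (X - P)).re = 0 := by
    intro s
    rw [mul_assoc, mul_conj]
    simp
  constructor
  · right
    refine notMem_hull hu h0 ?_
    rw [key, show P + I * (P - X) - P = ((-1 : ℝ) : ℂ) * I * (X - P) by push_cast; ring, e]
  · left
    refine notMem_hull hu h0 ?_
    rw [key, show P + I * (X - P) - P = ((1 : ℝ) : ℂ) * I * (X - P) by push_cast; ring, e]

/-- `C` is seen from `P` under an angle of at most 90 degrees -/
def Corner (C : Set ℂ) (P : ℂ) : Prop :=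
  ∃ w : ℂ, w ≠ 0 ∧ ∀ z ∈ C, 0 ≤ ((z - P) * w).re ∧ 0 ≤ ((z - P) * w).im

theorem blocked_corner {C : Set ℂ} {P X : ℂ} (hP : Corner C P) (hX : X ∈ C) :
    Blocked C X P ∧ Blocked C P X := by
  obtain ⟨w, hw, h⟩ := hP
  obtain ⟨h1, h2⟩ := h X hX
  constructor
  · refine blocked_end (u := (starRingEnd ℂ) w) ((map_ne_zero _).2 hw) (fun z hz => ?_) ?_
    · rw [conj_conj]; exact (h z hz).2
    · rw [conj_conj]; exact h1
  · refine blocked_start (v := (starRingEnd ℂ) w * I) (mul_ne_zero ((map_ne_zero _).2 hw) I_ne_zero)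
      (fun z hz => ?_) ?_
    · rw [map_mul, conj_conj, conj_I]
      have : ((z - P) * (w * -I)).im = -((z - P) * w).re := by
        simp only [mul_re, mul_im, neg_re, neg_im, I_re, I_im]
        ring
      rw [this]; linarith [(h z hz).1]
    · rw [map_mul, conj_conj, conj_I]
      have : ((X - P) * (w * -I)).re = ((X - P) * w).im := by
        simp only [mul_re, mul_im, neg_re, neg_im, I_re, I_im]
        ring
      rw [this]; exact h2

/-- three corners in order -/
theorem three_corners (L : Loop c) (J : Inj c) (nosq : NoSq (range c)) {q0 q1 q2 : ℝ}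
    (h01 : q0 < q1) (h12 : q1 < q2) (h20 : q2 < q0 + 1) (c0 : Corner (range c) (c q0))
    (c1 : Corner (range c) (c q1)) (c2 : Corner (range c) (c q2)) : False := by
  have p0 : c (q0 + 1) = c q0 := L.per _
  have p1 : c (q1 + 1) = c q1 := L.per _
  have p2 : c (q2 + 1) = c q2 := L.per _
  have p0' : c (q0 + 1 + 1) = c q0 := by rw [L.per, L.per]
  have b : ∀ {P : ℂ} (t : ℝ), Corner (range c) P → Blocked (range c) (c t) P ∧
      Blocked (range c) P (c t) := fun t hP => blocked_corner hP (mem_range_self t)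
  refine stair L J nosq 3 (fun j => [q1, q2, q0 + 1, q1 + 1].getD j 0)
    (fun j => [q0 + 1, q1 + 1, q2 + 1, q0 + 1 + 1].getD j 0) ?_ ?_ ?_ ?_ ?_ ?_ ?_ ?_
  · intro j hj
    interval_cases j <;> simp <;> linarith
  · intro j hj
    interval_cases j <;> simp <;> linarith
  · simp
  · simp
  · intro j hj
    interval_cases j <;> simp <;> linarith
  · intro j hj
    interval_cases j <;> simp <;> linarith
  · intro j hj t _
    interval_cases j <;> simp only [List.getD_cons_zero, List.getD_cons_succ]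
    · rw [p0]; exact (b t c0).1
    · rw [p1]; exact (b t c1).1
    · rw [p2]; exact (b t c2).1
  · intro j hj t _
    interval_cases j <;> simp only [List.getD_cons_zero, List.getD_cons_succ]
    · exact (b t c2).2
    · rw [p0]; exact (b t c0).2
    · rw [p1]; exact (b t c1).2

/-- three corners -/
theorem three (L : Loop c) (J : Inj c) (nosq : NoSq (range c)) {P Q R : ℂ} (hP : P ∈ range c)
    (hQ : Q ∈ range c) (hR : R ∈ range c) (hPQ : P ≠ Q) (hQR : Q ≠ R) (hPR : P ≠ R)
    (cP : Corner (range c) P) (cQ : Corner (range c) Q) (cR : Corner (range c) R) : False := by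
  have par : ∀ P ∈ range c, ∃ t : ℝ, 0 ≤ t ∧ t < 1 ∧ c t = P := by
    rintro _ ⟨u, rfl⟩
    refine ⟨Int.fract u, Int.fract_nonneg u, Int.fract_lt_one u, ?_⟩
    have := L.per_int (Int.fract u) ⌊u⌋
    rw [Int.fract_add_floor] at this
    exact this.symm
  obtain ⟨x, x0, x1, hx⟩ := par P hP
  obtain ⟨y, y0, y1, hy⟩ := par Q hQ
  obtain ⟨z, z0, z1, hz⟩ := par R hR
  have hxy : x ≠ y := fun h => hPQ (by rw [← hx, ← hy, h])
  have hyz : y ≠ z := fun h => hQR (by rw [← hy, ← hz, h])
  have hxz : x ≠ z := fun h => hPR (by rw [← hx, ← hz, h])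
  rw [← hx] at cP
  rw [← hy] at cQ
  rw [← hz] at cR
  rcases lt_or_gt_of_ne hxy with a | a <;> rcases lt_or_gt_of_ne hyz with b | b <;>
    rcases lt_or_gt_of_ne hxz with d | d
  · exact three_corners L J nosq a b (by linarith) cP cQ cR
  · exact absurd (a.trans b) (not_lt.2 d.le)
  · exact three_corners L J nosq d b (by linarith) cP cR cQ
  · exact three_corners L J nosq d a (by linarith) cR cP cQ
  · exact three_corners L J nosq a d (by linarith) cQ cP cR
  · exact three_corners L J nosq b d (by linarith) cQ cR cP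
  · exact absurd (b.trans a) (not_lt.2 d.le)
  · exact three_corners L J nosq b a (by linarith) cR cQ cP

/-- the corner of a triangle -/
theorem corner_of_triangle {P Q R : ℂ} {C : Set ℂ} (hC : C ⊆ convexHull ℝ {P, Q, R})
    (hPQ : P ≠ Q) (hPR : P ≠ R) (hang : 0 ≤ ((Q - P) * (starRingEnd ℂ) (R - P)).re) :
    Corner C P := by
  have quarter : ∀ w : ℂ, 0 ≤ ((Q - P) * w).re ∧ 0 ≤ ((Q - P) * w).im →
      0 ≤ ((R - P) * w).re ∧ 0 ≤ ((R - P) * w).im →
      ∀ z ∈ C, 0 ≤ ((z - P) * w).re ∧ 0 ≤ ((z - P) * w).im := by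
    intro w h1 h2 z hz
    have hconv : Convex ℝ {z : ℂ | 0 ≤ ((z - P) * w).re ∧ 0 ≤ ((z - P) * w).im} := by
      intro x hx y hy s t hs ht hst
      have e : (s • x + t • y - P) * w = (s : ℂ) * ((x - P) * w) + (t : ℂ) * ((y - P) * w) := by
        rw [real_smul, real_smul]
        have : (s : ℂ) + t = 1 := by exact_mod_cast hst
        linear_combination (P * w) * this
      simp only [mem_ofPred_eq] at hx hy ⊢
      rw [e, add_re, add_im, re_ofReal_mul, re_ofReal_mul, im_ofReal_mul, im_ofReal_mul]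
      exact ⟨add_nonneg (mul_nonneg hs hx.1) (mul_nonneg ht hy.1),
        add_nonneg (mul_nonneg hs hx.2) (mul_nonneg ht hy.2)⟩
    refine convexHull_min ?_ hconv (hC hz)
    intro x hx
    simp only [mem_insert_iff, mem_singleton_iff] at hx
    rcases hx with rfl | rfl | rfl
    · simp
    · exact h1
    · exact h2
  have hn : ∀ a : ℂ, 0 ≤ (a * (starRingEnd ℂ) a).re ∧ 0 ≤ (a * (starRingEnd ℂ) a).im := by
    intro a
    rw [mul_conj]
    simp [normSq_nonneg]
  rcases le_total 0 ((Q - P) * (starRingEnd ℂ) (R - P)).im with h | h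
  · exact ⟨(starRingEnd ℂ) (R - P), (map_ne_zero _).2 (sub_ne_zero.2 hPR.symm),
      quarter _ ⟨hang, h⟩ (hn _)⟩
  · refine ⟨(starRingEnd ℂ) (Q - P), (map_ne_zero _).2 (sub_ne_zero.2 hPQ.symm),
      quarter _ (hn _) ?_⟩
    have e : (R - P) * (starRingEnd ℂ) (Q - P) =
        (starRingEnd ℂ) ((Q - P) * (starRingEnd ℂ) (R - P)) := by
      rw [map_mul, conj_conj, mul_comm]
    rw [e, conj_re, conj_im]
    exact ⟨hang, by linarith⟩

end Pool.Agent.Q39.PG
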